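import Mathlib

set_option autoImplicit false
open Finset Polynomial

namespace Pool.Agent.H.MP_9cb2a9_co

noncomputable def F (a p : ℕ) : ℕ[X] := (1 + X) ^ a * (2 + X) ^ p

noncomputable def HH (a p s : ℕ) : ℕ := (F a p).coeff s

theorem F_id (a p : ℕ) :
    X * derivative (F a p) + (p : ℕ[X]) * F a p =
      (a : ℕ[X]) * (X * F (a - 1) p) + 2 * (p : ℕ[X]) * F (a + 1) (p - 1) := by
  unfold F
  have h2 : derivative (2 + X : ℕ[X]) = 1 := by
    rw [derivative_add, derivative_X]; simp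
  have h1 : derivative (1 + X : ℕ[X]) = 1 := by
    rw [derivative_add, derivative_X]; simp
  rw [derivative_mul, derivative_pow, derivative_pow, h1, h2]
  simp only [map_natCast]
  rcases p with _ | p
  · simp; ring
  · simp only [Nat.add_sub_cancel]
    ring

theorem H_id (a p s : ℕ) :
    (s + p) * HH a p s = (if s = 0 then 0 else a * HH (a - 1) p (s - 1)) + 2 * p * HH (a + 1) (p - 1) s := by
  have h := congrArg (fun f : ℕ[X] => f.coeff s) (F_id a p)
  have e2 : (2 * (p : ℕ[X]) : ℕ[X]) = ((2 * p : ℕ) : ℕ[X]) := by push_cast; ring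
  rw [e2] at h
  simp only [coeff_add, coeff_natCast_mul, Nat.cast_id] at h
  unfold HH
  rcases s with _ | s
  · simp at h ⊢
    exact h
  · simp only [coeff_X_mul, coeff_derivative] at h
    simp only [Nat.succ_ne_zero, if_false, Nat.add_sub_cancel]
    rw [← h]; push_cast; ring

theorem coeff_two_add_X (p q : ℕ) : ((2 + X : ℕ[X]) ^ p).coeff q = 2 ^ (p - q) * p.choose q := by
  have : (2 + X : ℕ[X]) = X + C 2 := by rw [add_comm]; rfl
  rw [this, coeff_X_add_C_pow]
  simp

theorem H_ge (a p s : ℕ) : 2 ^ p * (a + p).choose s ≤ 2 ^ (min s p) * HH a p s := by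
  unfold HH F
  rw [coeff_mul, Nat.add_choose_eq, Finset.mul_sum, Finset.mul_sum]
  refine Finset.sum_le_sum fun x hx => ?_
  rw [coeff_two_add_X, coeff_one_add_X_pow]
  simp only [Nat.cast_id]
  have hx' := Finset.HasAntidiagonal.mem_antidiagonal.1 hx
  by_cases h : x.2 ≤ p
  · have : 2 ^ p ≤ 2 ^ (min s p) * 2 ^ (p - x.2) := by
      rw [← pow_add]
      exact Nat.pow_le_pow_right (by norm_num) (by omega)
    calc 2 ^ p * (a.choose x.1 * p.choose x.2)
        ≤ (2 ^ (min s p) * 2 ^ (p - x.2)) * (a.choose x.1 * p.choose x.2) :=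
          Nat.mul_le_mul_right _ this
      _ = _ := by ring
  · rw [Nat.choose_eq_zero_of_lt (by omega : p < x.2)]; simp

noncomputable def om (a b s p : ℕ) : ℝ := (b.choose p : ℝ) * (HH a p s : ℝ) / 2 ^ p

theorem om_nonneg (a b s p : ℕ) : 0 ≤ om a b s p := by unfold om; positivity

theorem om_key (a b s p : ℕ) :
    ((s : ℝ) + p) * om a b s p ≤
      (if p = 0 then 0 else (b : ℝ) * om (a + 1) b s (p - 1)) +
      (if s = 0 then 0 else (a : ℝ) * om (a - 1) (b + 1) (s - 1) p) := by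
  have h : ((s : ℝ) + p) * HH a p s =
      (if s = 0 then (0 : ℝ) else a * HH (a - 1) p (s - 1)) + 2 * p * HH (a + 1) (p - 1) s := by
    have := H_id a p s
    split_ifs at this ⊢ <;> exact_mod_cast this
  have e : ((s : ℝ) + p) * om a b s p = (b.choose p : ℝ) / 2 ^ p * (((s : ℝ) + p) * HH a p s) := by
    unfold om; ring
  rw [e, h, mul_add, add_comm]
  apply add_le_add
  · rcases p with _ | p
    · simp
    · simp only [Nat.succ_ne_zero, if_false, Nat.add_sub_cancel]
      unfold om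
      have h1 : (b.choose (p + 1) : ℝ) * ((p : ℝ) + 1) ≤ b * b.choose p := by
        have := Nat.choose_succ_right_eq b p
        have h2 : b.choose (p + 1) * (p + 1) ≤ b * b.choose p := by
          rw [this, mul_comm]
          exact Nat.mul_le_mul_right _ (Nat.sub_le _ _)
        exact_mod_cast h2
      have h3 : (0 : ℝ) ≤ (HH (a + 1) p s : ℝ) / 2 ^ p := by positivity
      calc _ = ((b.choose (p + 1) : ℝ) * ((p : ℝ) + 1)) * ((HH (a + 1) p s : ℝ) / 2 ^ p) := by
            push_cast; field_simp; ring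
        _ ≤ (b * b.choose p) * ((HH (a + 1) p s : ℝ) / 2 ^ p) :=
            mul_le_mul_of_nonneg_right h1 h3
        _ = _ := by ring
  · split_ifs
    · simp
    · unfold om
      have h1 : (b.choose p : ℝ) ≤ (b + 1).choose p := by
        exact_mod_cast Nat.choose_le_choose p (Nat.le_succ b)
      have h3 : (0 : ℝ) ≤ (a : ℝ) * (HH (a - 1) p (s - 1) : ℝ) / 2 ^ p := by positivity
      calc _ = (b.choose p : ℝ) * ((a : ℝ) * (HH (a - 1) p (s - 1) : ℝ) / 2 ^ p) := by ring
        _ ≤ ((b + 1).choose p : ℝ) * ((a : ℝ) * (HH (a - 1) p (s - 1) : ℝ) / 2 ^ p) :=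
            mul_le_mul_of_nonneg_right h1 h3
        _ = _ := by ring

theorem om_ge (a b s p : ℕ) :
    ((a + p).choose s : ℝ) * b.choose p ≤ 2 ^ (min s p) * om a b s p := by
  have h : (2 : ℝ) ^ p * (a + p).choose s ≤ 2 ^ (min s p) * HH a p s := by
    exact_mod_cast H_ge a p s
  unfold om
  have hp : (0 : ℝ) < 2 ^ p := by positivity
  have hb : (0 : ℝ) ≤ b.choose p := by positivity
  rw [← mul_div_assoc, le_div_iff₀ hp]
  nlinarith

section
variable (A : ℕ → ℕ → ℝ) (h0 : ∀ j m, 2 ≤ m → 0 ≤ A j m) (hz : ∀ m, 2 ≤ m → A 0 m = 0)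
  (hv : ∀ j m, m < 2 * j → A j m = 0)
  (hr : ∀ j m, 2 ≤ m → A j (m + 1) = j * A j m + ((m + 2 - 2 * j : ℕ) : ℝ) * A (j - 1) m)

noncomputable def S (A : ℕ → ℕ → ℝ) (i k m : ℕ) : ℝ :=
  ∑ x ∈ antidiagonal k, om (m - 2 * (i - x.1)) (i - x.1) x.1 x.2 * A (i - x.1) m

include h0 hz hv hr in
theorem S_step (i k m : ℕ) (hm : 2 ≤ m) : ((k : ℝ) + 1) * S A i (k + 1) m ≤ S A i k (m + 1) := by
  set f : ℕ × ℕ → ℝ := fun x => if x.2 = 0 then 0 else
    om (m + 1 - 2 * (i - x.1)) (i - x.1) x.1 (x.2 - 1) * (((i - x.1 : ℕ) : ℝ) * A (i - x.1) m)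
    with hf
  set g : ℕ × ℕ → ℝ := fun x => if x.1 = 0 then 0 else
    om (m + 1 - 2 * (i - (x.1 - 1))) (i - (x.1 - 1)) (x.1 - 1) x.2 *
      (((m + 2 - 2 * (i - (x.1 - 1)) : ℕ) : ℝ) * A (i - (x.1 - 1) - 1) m) with hg
  have e1 : S A i k (m + 1) = ∑ x ∈ antidiagonal (k + 1), f x + ∑ x ∈ antidiagonal (k + 1), g x := by
    rw [Finset.Nat.sum_antidiagonal_succ' (f := f), Finset.Nat.sum_antidiagonal_succ (f := g)]
    simp only [hf, hg, if_true, zero_add, Nat.succ_ne_zero, if_false, Nat.add_sub_cancel]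
    unfold S
    rw [← Finset.sum_add_distrib]
    refine Finset.sum_congr rfl fun x _ => ?_
    rw [hr _ m hm]; ring
  rw [e1, ← Finset.sum_add_distrib]
  unfold S
  rw [Finset.mul_sum]
  refine Finset.sum_le_sum fun x hx => ?_
  obtain ⟨s, p⟩ := x
  have hx' : s + p = k + 1 := Finset.HasAntidiagonal.mem_antidiagonal.1 hx
  have hf0 : 0 ≤ f (s, p) := by
    simp only [hf]
    split_ifs
    · exact le_rfl
    · exact mul_nonneg (om_nonneg _ _ _ _) (mul_nonneg (Nat.cast_nonneg _) (h0 _ _ hm))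
  have hg0 : 0 ≤ g (s, p) := by
    simp only [hg]
    split_ifs
    · exact le_rfl
    · exact mul_nonneg (om_nonneg _ _ _ _) (mul_nonneg (Nat.cast_nonneg _) (h0 _ _ hm))
  by_cases hA : A (i - s) m = 0
  · simp only [hA, mul_zero]
    exact add_nonneg hf0 hg0
  · have hj : i - s ≠ 0 := fun h => hA (by rw [h]; exact hz m hm)
    have hj2 : 2 * (i - s) ≤ m := by
      by_contra h
      exact hA (hv _ _ (by omega))
    have hk := mul_le_mul_of_nonneg_right (om_key (m - 2 * (i - s)) (i - s) s p) (h0 (i - s) m hm)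
    have e2 : (k : ℝ) + 1 = (s : ℝ) + p := by exact_mod_cast hx'.symm
    simp only [e2]
    rw [← mul_assoc]
    refine hk.trans (le_of_eq ?_)
    rw [add_mul]
    congr 1
    · simp only [hf]
      split_ifs
      · simp
      · rw [show m + 1 - 2 * (i - s) = m - 2 * (i - s) + 1 by omega]; ring
    · simp only [hg]
      split_ifs with hs
      · simp
      · rw [show i - (s - 1) = i - s + 1 by omega,
          show m + 1 - 2 * (i - s + 1) = m - 2 * (i - s) - 1 by omega,
          show m + 2 - 2 * (i - s + 1) = m - 2 * (i - s) by omega, Nat.add_sub_cancel]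
        ring

include h0 hz hv hr in
theorem S_le (i k : ℕ) : ∀ m, 2 ≤ m → (k.factorial : ℝ) * S A i k m ≤ A i (m + k) := by
  induction k with
  | zero =>
    intro m _
    simp [S, om, HH, F, coeff_one_add_X_pow]
  | succ k ih =>
    intro m hm
    have h1 := S_step A h0 hz hv hr i k m hm
    have h2 := ih (m + 1) (by omega)
    rw [show m + 1 + k = m + (k + 1) by omega] at h2
    rw [Nat.factorial_succ]
    push_cast
    have : (0 : ℝ) ≤ k.factorial := by positivity
    nlinarith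

noncomputable def T (A : ℕ → ℕ → ℝ) (i k m : ℕ) : ℝ :=
  ∑ x ∈ antidiagonal k, ((m + k - 2 * i + x.1).choose x.1 : ℝ) * ((i - x.1).choose x.2 : ℝ) *
    A (i - x.1) m

include h0 hz hv hr in
theorem T_le (i t m : ℕ) (hm : 2 ≤ m) (hi : 2 * i ≤ m + 2 * t) :
    ((2 * t).factorial : ℝ) * T A i (2 * t) m ≤ 2 ^ t * A i (m + 2 * t) := by
  have h1 := S_le A h0 hz hv hr i (2 * t) m hm
  have h2 : T A i (2 * t) m ≤ 2 ^ t * S A i (2 * t) m := by
    unfold T S
    rw [Finset.mul_sum]
    refine Finset.sum_le_sum fun x hx => ?_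
    obtain ⟨s, p⟩ := x
    have hx' : s + p = 2 * t := Finset.HasAntidiagonal.mem_antidiagonal.1 hx
    by_cases hA : A (i - s) m = 0
    · simp [hA]
    · have hj : i - s ≠ 0 := fun h => hA (by rw [h]; exact hz m hm)
      have hj2 : 2 * (i - s) ≤ m := by
        by_contra h
        exact hA (hv _ _ (by omega))
      have h3 := om_ge (m - 2 * (i - s)) (i - s) s p
      have h4 : (2 : ℝ) ^ (min s p) ≤ 2 ^ t := pow_le_pow_right₀ (by norm_num) (by omega)
      have h5 := mul_le_mul_of_nonneg_right h4 (om_nonneg (m - 2 * (i - s)) (i - s) s p)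
      simp only
      rw [show m + 2 * t - 2 * i + s = m - 2 * (i - s) + p by omega, ← mul_assoc]
      exact mul_le_mul_of_nonneg_right (h3.trans h5) (h0 _ _ hm)
  have : (0 : ℝ) ≤ (2 * t).factorial := by positivity
  have h6 : (0 : ℝ) ≤ 2 ^ t := by positivity
  nlinarith

include h0 hv hr in
theorem T_two (i m : ℕ) (hm : 4 ≤ m) (hi3 : 3 ≤ i) (hi : 2 * i ≤ m + 2) :
    T A i 2 m ≤ 3 / 4 * A i (m + 2) := by
  obtain ⟨j, rfl⟩ : ∃ j, i = j + 3 := ⟨i - 3, by omega⟩
  obtain ⟨c, hc⟩ : ∃ c, m + 2 = 2 * (j + 3) + c := ⟨m + 2 - 2 * (j + 3), by omega⟩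
  have e0 : antidiagonal 2 = {(0, 2), (1, 1), (2, 0)} := by decide
  unfold T
  rw [e0, Finset.sum_insert (by decide), Finset.sum_insert (by decide), Finset.sum_singleton]
  simp only [show m + 2 - 2 * (j + 3) = c by omega, Nat.sub_zero,
    show j + 3 - 1 = j + 2 by omega, show j + 3 - 2 = j + 1 by omega,
    Nat.choose_zero_right, Nat.choose_one_right, Nat.cast_choose_two]
  have r1 := hr (j + 3) (m + 1) (by omega)
  have r2 := hr (j + 3) m (by omega)
  have r3 := hr (j + 2) m (by omega)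
  rw [show m + 1 + 2 - 2 * (j + 3) = c + 1 by omega, show j + 3 - 1 = j + 2 by omega] at r1
  rw [show m + 2 - 2 * (j + 3) = c by omega, show j + 3 - 1 = j + 2 by omega] at r2
  rw [show m + 2 - 2 * (j + 2) = c + 2 by omega, show j + 2 - 1 = j + 1 by omega] at r3
  rw [show m + 2 = m + 1 + 1 by omega, r1, r2, r3]
  have x0 := h0 (j + 3) m (by omega)
  have x1 := h0 (j + 2) m (by omega)
  have x2 := h0 (j + 1) m (by omega)
  have hj : (0 : ℝ) ≤ j := Nat.cast_nonneg _
  push_cast
  rcases Nat.eq_zero_or_pos c with rfl | hc0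
  · obtain ⟨m', rfl⟩ : ∃ m', m = m' + 1 := ⟨m - 1, by omega⟩
    have r4 := hr (j + 2) m' (by omega)
    have r5 := hr (j + 1) m' (by omega)
    rw [show m' + 2 - 2 * (j + 2) = 1 by omega, show j + 2 - 1 = j + 1 by omega,
      hv (j + 2) m' (by omega)] at r4
    have x3 := h0 (j + 1 - 1) m' (by omega)
    have x4 : (0 : ℝ) ≤ ((m' + 2 - 2 * (j + 1) : ℕ) : ℝ) * A (j + 1 - 1) m' := by positivity
    have x5 : ((j : ℝ) + 1) * A (j + 2) (m' + 1) ≤ A (j + 1) (m' + 1) := by
      rw [r4, r5]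
      generalize ((m' + 2 - 2 * (j + 1) : ℕ) : ℝ) * A (j + 1 - 1) m' = z at x4
      push_cast; linarith
    have x6 := mul_nonneg hj x0
    have x7 := mul_nonneg hj x6
    have x8 := mul_nonneg hj x1
    push_cast
    nlinarith
  · have hc1 : (1 : ℝ) ≤ c := by exact_mod_cast hc0
    have hc2 : (0 : ℝ) ≤ c - 1 := by linarith
    have x6 := mul_nonneg hj x0
    have x7 := mul_nonneg hj x6
    have x8 := mul_nonneg hj x1
    have x9 := mul_nonneg hc2 x1
    have x10 := mul_nonneg hc2 x8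
    have x11 := mul_nonneg hc2 x2
    have x12 := mul_nonneg hc2 x11
    nlinarith

theorem fact_ge (t : ℕ) (ht : 2 ≤ t) : (3 : ℝ) * 8 ^ t ≤ 8 * (2 * t).factorial := by
  induction t, ht using Nat.le_induction with
  | base => norm_num [Nat.factorial]
  | succ t ht ih =>
    rw [show 2 * (t + 1) = 2 * t + 1 + 1 by ring, Nat.factorial_succ, Nat.factorial_succ]
    push_cast
    have h1 : (2 : ℝ) ≤ t := by exact_mod_cast ht
    have h2 : (0 : ℝ) ≤ (2 * t).factorial := by positivity
    have h3 : (8 : ℝ) ≤ (2 * t + 1 + 1) * (2 * t + 1) := by nlinarith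
    rw [pow_succ]
    nlinarith

theorem geo (N : ℕ) (hN : 1 ≤ N) :
    ∑ t ∈ Icc 1 N, (if t = 1 then (3 / 4 : ℝ) else 8 / 3 * (1 / 4) ^ t) ≤
      3 / 4 + 2 / 9 - 8 / 9 * (1 / 4) ^ N := by
  induction N, hN using Nat.le_induction with
  | base => norm_num
  | succ N hN ih =>
    rw [Finset.sum_Icc_succ_top (by omega), if_neg (by omega), pow_succ]
    linarith

include h0 hz hv hr in
theorem T_sum (i n : ℕ) (hi3 : 3 ≤ i) (hi : i ≤ n) :
    ∑ t ∈ Icc 1 (i / 2), T A i (2 * t) (2 * (n - t)) ≤ A i (2 * n) := by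
  have hA := h0 i (2 * n) (by omega)
  calc _ ≤ ∑ t ∈ Icc 1 (i / 2), (if t = 1 then (3 / 4 : ℝ) else 8 / 3 * (1 / 4) ^ t) *
        A i (2 * n) := by
        refine Finset.sum_le_sum fun t ht => ?_
        have ht' := Finset.mem_Icc.1 ht
        split_ifs with h1
        · subst h1
          have := T_two A h0 hv hr i (2 * (n - 1)) (by omega) hi3 (by omega)
          rw [show 2 * (n - 1) + 2 = 2 * n by omega] at this
          exact this
        · have h2 := T_le A h0 hz hv hr i t (2 * (n - t)) (by omega) (by omega)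
          rw [show 2 * (n - t) + 2 * t = 2 * n by omega] at h2
          have h3 := fact_ge t (by omega)
          have h4 : (0 : ℝ) < (2 * t).factorial := by positivity
          have h5 : (2 : ℝ) ^ t ≤ (2 * t).factorial * (8 / 3 * (1 / 4) ^ t) := by
            have e : (8 : ℝ) ^ t * (1 / 4) ^ t = 2 ^ t := by rw [← mul_pow]; norm_num
            have h6 : (0 : ℝ) ≤ (1 / 4) ^ t := by positivity
            nlinarith
          refine le_of_mul_le_mul_left (h2.trans ?_) h4
          rw [← mul_assoc]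
          exact mul_le_mul_of_nonneg_right h5 hA
    _ ≤ _ := by
        rw [← Finset.sum_mul]
        have h1 := geo (i / 2) (by omega)
        have h2 : (0 : ℝ) ≤ (1 / 4) ^ (i / 2) := by positivity
        nlinarith

theorem T_eq (i t m : ℕ) (ht : 2 * t ≤ i) :
    ∑ s ∈ range (i + 1), ((m + 2 * t - 2 * i + s).choose s : ℝ) *
      (((i - s).choose (i - 2 * t) : ℝ) * A (i - s) m) = T A i (2 * t) m := by
  unfold T
  rw [Finset.Nat.sum_antidiagonal_eq_sum_range_succ_mk]
  symm
  refine Finset.sum_subset_zero_on_sdiff (Finset.range_subset_range.2 (by omega)) ?_ ?_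
  · intro s hs
    simp only [Finset.mem_sdiff, Finset.mem_range] at hs
    rw [Nat.choose_eq_zero_of_lt (by omega : i - s < i - 2 * t)]
    simp
  · intro s hs
    simp only [Finset.mem_range] at hs
    rw [Nat.choose_symm_of_eq_add (by omega : i - s = (2 * t - s) + (i - 2 * t))]
    ring

end

end Pool.Agent.H.MP_9cb2a9_co
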